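import Pool.Agent.N483.KM.Stm
import Pool.Agent.H212R2.KLS.T1

/-!
# KM18: densities of a linear functional on the fibres

Project KM (helper483); this file by helper152.
-/

set_option autoImplicit false

namespace Pool.Agent.N152.KM

open MeasureTheory Set Filter Topology
open scoped ENNReal InnerProductSpace
open Pool.Agent.R754.KG (E un sl Rv)
open Pool.Agent.R755.KF (CB)

/-- the orthogonal complement of a vector -/
noncomputable abbrev VV {N : ℕ} (θ : E N) : Submodule ℝ (E N) := (Submodule.span ℝ {θ})ᗮ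

/-- `(w, v) ↦ w + v θ` -/
noncomputable def ph {N : ℕ} (θ : E N) : VV θ × ℝ →ₗ[ℝ] E N :=
  (VV θ).subtype ∘ₗ LinearMap.fst ℝ (VV θ) ℝ + (LinearMap.toSpanSingleton ℝ (E N) θ) ∘ₗ
    LinearMap.snd ℝ (VV θ) ℝ

theorem ph_apply {N : ℕ} (θ : E N) (z : VV θ × ℝ) : ph θ z = (z.1 : E N) + z.2 • θ := rfl

theorem inner_ph {N : ℕ} {θ : E N} (hθ : ‖θ‖ = 1) (z : VV θ × ℝ) : ⟪θ, ph θ z⟫_ℝ = z.2 := by
  rw [ph_apply, inner_add_right, inner_smul_right, real_inner_self_eq_norm_sq, hθ,
    Submodule.mem_orthogonal_singleton_iff_inner_right.1 z.1.2]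
  ring

theorem ph_bij {N : ℕ} {θ : E N} (hθ : ‖θ‖ = 1) : Function.Bijective (ph θ) := by
  constructor
  · rw [← LinearMap.ker_eq_bot, LinearMap.ker_eq_bot']
    intro z hz
    have h1 := inner_ph hθ z
    rw [hz, inner_zero_right] at h1
    rw [ph_apply, ← h1, zero_smul, add_zero] at hz
    exact Prod.ext (Subtype.ext hz) h1.symm
  · intro x
    have h1 : x - ⟪θ, x⟫_ℝ • θ ∈ VV θ := by
      rw [Submodule.mem_orthogonal_singleton_iff_inner_right, inner_sub_right, inner_smul_right,
        real_inner_self_eq_norm_sq, hθ]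
      ring
    refine ⟨(⟨_, h1⟩, ⟪θ, x⟫_ℝ), ?_⟩
    rw [ph_apply]
    simp

/-- the splitting of the volume -/
theorem split {N : ℕ} {θ : E N} (hθ : ‖θ‖ = 1) : ∃ ν : Measure (VV θ), ν.IsAddHaarMeasure ∧
    ∀ G : E N → ℝ≥0∞, Measurable G →
      ∫⁻ x, G x = ∫⁻ v : ℝ, ∫⁻ w : VV θ, G (ph θ (w, v)) ∂ν := by
  let e : (VV θ × ℝ) ≃L[ℝ] E N :=
    (LinearEquiv.ofBijective (ph θ) (ph_bij hθ)).toContinuousLinearEquiv
  have he : ∀ z, e z = ph θ z := fun z => rfl
  let μ : Measure (VV θ) := Measure.addHaar
  have hm : (Measure.map e (μ.prod volume)).IsAddHaarMeasure := e.isAddHaarMeasure_map _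
  have hc' := Measure.isAddLeftInvariant_eq_smul (volume : Measure (E N))
    (Measure.map e (μ.prod volume))
  have hcp := Measure.addHaarScalarFactor_pos_of_isAddHaarMeasure (volume : Measure (E N))
    (Measure.map e (μ.prod volume))
  obtain ⟨c, hc0, hct, hc⟩ : ∃ c : ℝ≥0∞, c ≠ 0 ∧ c ≠ ⊤ ∧
      (volume : Measure (E N)) = c • Measure.map e (μ.prod volume) :=
    ⟨_, ENNReal.coe_ne_zero.mpr hcp.ne', ENNReal.coe_ne_top, hc'⟩
  refine ⟨c • μ, Measure.IsAddHaarMeasure.smul _ hc0 hct, fun G hG => ?_⟩
  have hem : Measurable e := e.continuous.measurable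
  calc ∫⁻ x, G x = ∫⁻ x, G x ∂(c • Measure.map e (μ.prod volume)) := by rw [← hc]
    _ = c * ∫⁻ z, G (e z) ∂(μ.prod volume) := by
        rw [lintegral_smul_measure, lintegral_map hG hem, smul_eq_mul]
    _ = c * ∫⁻ v : ℝ, ∫⁻ w : VV θ, G (ph θ (w, v)) ∂μ := by
        rw [lintegral_prod_symm (fun z => G (e z)) (hG.comp hem).aemeasurable]
        rfl
    _ = ∫⁻ v : ℝ, c * ∫⁻ w : VV θ, G (ph θ (w, v)) ∂μ := by
        rw [lintegral_const_mul]
        exact ((hG.comp hem).comp measurable_swap).lintegral_prod_right'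
    _ = ∫⁻ v : ℝ, ∫⁻ w : VV θ, G (ph θ (w, v)) ∂(c • μ) := by
        simp only [lintegral_smul_measure, smul_eq_mul]

/-- **KM18.** -/
theorem t_FDN : Pool.Agent.N483.KM.S_FDN := by
  intro N d K θ hK hθ
  obtain ⟨ν, hν, hsplit⟩ := split hθ
  have hphc : Continuous (ph θ) := LinearMap.continuous_of_finiteDimensional _
  have hcl : IsClosed K := hK.comp.isClosed
  -- the set in all variables
  have hmap : Continuous (fun q : (E d × ℝ) × VV θ => (ph θ (q.2, q.1.2), q.1.1)) := by fun_prop
  have hS : MeasurableSet {q : (E d × ℝ) × VV θ | (ph θ (q.2, q.1.2), q.1.1) ∈ K} :=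
    (hcl.preimage hmap).measurableSet
  have hsec : ∀ t v, MeasurableSet {w : VV θ | (ph θ (w, v), t) ∈ K} := by
    intro t v
    have h1 : Continuous (fun w : VV θ => (ph θ (w, v), t)) := by fun_prop
    exact (hcl.preimage h1).measurableSet
  refine ⟨fun t v => ν {w : VV θ | (ph θ (w, v), t) ∈ K}, ?_, ?_, ?_, ?_⟩
  · exact measurable_measure_prodMk_left hS
  · intro t t' v v' s hs0 hs1
    have key := Pool.Agent.H212R2.KLS.PL ν s hs0 hs1
      ({w : VV θ | (ph θ (w, v), t) ∈ K}.indicator fun _ => 1)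
      ({w : VV θ | (ph θ (w, v'), t') ∈ K}.indicator fun _ => 1)
      ({w : VV θ | (ph θ (w, (1 - s) * v + s * v'), (1 - s) • t + s • t') ∈ K}.indicator
        fun _ => 1)
      (measurable_const.indicator (hsec _ _)) (measurable_const.indicator (hsec _ _))
      (measurable_const.indicator (hsec _ _)) ?_
    · rw [lintegral_indicator (hsec _ _), lintegral_indicator (hsec _ _),
        lintegral_indicator (hsec _ _), setLIntegral_one, setLIntegral_one,
        setLIntegral_one] at key
      exact key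
    · intro x y
      by_cases hx : (ph θ (x, v), t) ∈ K
      · by_cases hy : (ph θ (y, v'), t') ∈ K
        · have h1 : (ph θ ((1 - s) • x + s • y, (1 - s) * v + s * v'),
              (1 - s) • t + s • t') ∈ K := by
            have h2 := hK.conv hx hy (sub_pos.2 hs1).le hs0.le (by ring)
            have h3 : (ph θ ((1 - s) • x + s • y, (1 - s) * v + s * v'),
                (1 - s) • t + s • t') = (1 - s) • (ph θ (x, v), t) + s • (ph θ (y, v'), t') := by
              refine Prod.ext ?_ rfl
              show _ = (1 - s) • ph θ (x, v) + s • ph θ (y, v')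
              rw [← map_smul, ← map_smul, ← map_add]
              rfl
            rw [h3]
            exact h2
          rw [indicator_of_mem (show x ∈ {w : VV θ | (ph θ (w, v), t) ∈ K} from hx),
            indicator_of_mem (show y ∈ {w : VV θ | (ph θ (w, v'), t') ∈ K} from hy),
            indicator_of_mem (show (1 - s) • x + s • y ∈ {w : VV θ |
              (ph θ (w, (1 - s) * v + s * v'), (1 - s) • t + s • t') ∈ K} from h1)]
          simp
        · rw [indicator_of_notMem (show y ∉ {w : VV θ | (ph θ (w, v'), t') ∈ K} from hy),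
            ENNReal.zero_rpow_of_pos hs0, mul_zero]
          exact zero_le
      · rw [indicator_of_notMem (show x ∉ {w : VV θ | (ph θ (w, v), t) ∈ K} from hx),
          ENNReal.zero_rpow_of_pos (sub_pos.2 hs1), zero_mul]
        exact zero_le
  · obtain ⟨B, hB⟩ := hK.comp.isBounded.exists_norm_le
    refine ⟨B, fun t v h => ?_⟩
    have : {w : VV θ | (ph θ (w, v), t) ∈ K} = ∅ := by
      rw [Set.eq_empty_iff_forall_notMem]
      intro w hw
      have h1 := hB _ hw
      rw [Prod.norm_def] at h1
      have h2 := (le_max_left _ _).trans h1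
      have h3 := (le_max_right _ _).trans h1
      rcases h with h | h
      · exact absurd (lt_of_lt_of_le h h3) (lt_irrefl _)
      · have h4 : |v| ≤ ‖ph θ (w, v)‖ := by
          have h5 := inner_ph hθ (w, v)
          have h6 := abs_real_inner_le_norm θ (ph θ (w, v))
          rw [h5, hθ, one_mul] at h6
          exact h6
        exact absurd (lt_of_lt_of_le h (h4.trans h2)) (lt_irrefl _)
    simp only [this, measure_empty]
  · intro t F hF
    have hslm : MeasurableSet (sl K t) := by
      have h1 : Continuous (fun x : E N => (x, t)) := by fun_prop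
      exact (hcl.preimage h1).measurableSet
    have hin : Measurable (fun x : E N => F ⟪θ, x⟫_ℝ) := by
      have h1 : Continuous (fun x : E N => ⟪θ, x⟫_ℝ) := by fun_prop
      exact hF.comp h1.measurable
    rw [← lintegral_indicator hslm, hsplit _ (hin.indicator hslm)]
    refine lintegral_congr fun v => ?_
    have h1 : ∀ w : VV θ, (sl K t).indicator (fun x : E N => F ⟪θ, x⟫_ℝ) (ph θ (w, v)) =
        {w : VV θ | (ph θ (w, v), t) ∈ K}.indicator (fun _ => F v) w := by
      intro w
      by_cases hw : (ph θ (w, v), t) ∈ K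
      · rw [indicator_of_mem (show ph θ (w, v) ∈ sl K t from hw),
          indicator_of_mem (show w ∈ {w : VV θ | (ph θ (w, v), t) ∈ K} from hw), inner_ph hθ]
      · rw [indicator_of_notMem (show ph θ (w, v) ∉ sl K t from hw),
          indicator_of_notMem (show w ∉ {w : VV θ | (ph θ (w, v), t) ∈ K} from hw)]
    simp only [h1]
    rw [lintegral_indicator (hsec _ _), setLIntegral_const]

end Pool.Agent.N152.KM
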